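import Mathlib
import Pool.Agent.TH170.GS.Main
import Pool.Agent.TH170.GS.TB
import Pool.Agent.TH117.GN.WeilEtaleDefs

/-!
# Finite generation of Weil-étale motivic cohomology for varieties over finite fields generated by
abelian varieties with almost all slope types of arbitrary CM fields

Over an algebraic closure of the field with `p` elements each abelian variety is isogenous to the
reduction of an abelian variety of CM type (Honda, Tate). So an abelian variety over the field with
`p ^ a` elements is modelled by `RedAV`: a finite product of CM types `(E i, Φ i)` with Weil numbers
`π i ∈ E i` that satisfy the formula of Shimura and Taniyama; its cohomology of degree `n`, with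
coefficients in an algebraically closed field `Ω`, consists of the alternating `n`-forms on
`Ω ⊗ H_1`, on which the Frobenius endomorphism acts by `π`. We fix an isomorphism `ν` of the algebraic
closure of `ℚ_p` with `ℂ`; it defines a `p`-adic valuation of `ℂ`, with the value one at `p`.

Let `K` be a CM field of degree `2 g`; nothing is assumed about its Galois group. Let `M` be a
function with nonzero integral values on the complex embeddings of `K`, invariant under complex
conjugation. A CM type `Φ` of `K` (a choice of one element out of each complex conjugate pair of
embeddings; there are `2 ^ g` types), `M` and a real number `κ ≠ 0` prescribe the slopes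
`(a + κ M) / 2` (at the embeddings in `Φ`) and `(a - κ M) / 2` (outside of `Φ`) of a Weil number in
`K`. If `p` splits completely in `K` then, by Honda and Tate, all slopes with rational values between
`0` and `a` that are symmetric in this way occur for abelian varieties. The case `M = 1`, `κ = a` is
the ordinary case; the assumption on `M` says that `a / 2` is not a slope. Slopes are rational, so
integral weights `M` are no restriction.

Let `K i` be finitely many CM fields, of degrees `2 g i`, that are pairwise independent: for `i ≠ k`
and all complex embeddings `φ` of `K i` and `ψ` of `K k` some automorphism of `ℂ` is the identity on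
`φ (K i)` and the complex conjugation on `ψ (K k)` (this is no condition for one field). Let `M i`
be weights as above all of whose values divide `n i`. There are `2 ^ (∑ i, g i)` families of
CM types `Φ i` of the fields `K i`. For such a family let `𝒞` (`OfTypes`) be the class of the abelian
varieties `Y` each of whose factors is supersingular or has a Frobenius endomorphism some power of
which is, for some `i`, a Weil number in `K i` with the slopes prescribed by `Φ i`, `M i` and some
real number `κ i ≠ 0` (which depends only on `Y` and `i`). So `Y` is, over an algebraic closure,
isogenous to a product of powers of one abelian variety for each `i`, with the given slopes, and of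
a supersingular one.

`Homology Ω V` are data of motivic homology `M X i j = H_i^M(X, ℚ(j)) = CH_j(X, i - 2 j) ⊗ ℚ` and of
`ℓ`-adic homology `E X i j = H_i(X, ℚ_ℓ(j))` (coefficients extended to `Ω`) of schemes `X` of finite
type over a finite field (the elements of `V`), with the Frobenius and the regulator. For a family of
types let `𝒢` be the smallest class (`Generated`) of such schemes that contains those with the
homology groups of abelian varieties in `𝒞` (`IsAbelianOfTypes`), that is closed under direct summands
of finite sums of twists of motives, and that contains all of a closed subscheme `Z` of `X`, `X` and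
`X ∖ Z` if it contains two of them. It contains for instance all products of varieties in `𝒞`, all
products of curves with Jacobians in `𝒞` and of open subsets of such curves, symmetric powers of
them, and the singular and the open varieties with a stratification by such varieties.

A family of types is exceptional (`exceptionalFamilies ν K M`) if the following fails: for all smooth
projective varieties `X` in `𝒢` (the property `S`) and all `n` and `i` the Weil-étale motivic
cohomology group `W X n i = H^i_W(X, ℤ(n))` is finitely generated. We use the theorem of Geisser and
Kahn (`IsWeilEtale`) that these groups are finitely generated if for `X` the conjecture of Tate and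
Beilinson `TB` holds (for all degrees and twists).

Properties of the theory of cycles that are used for the abelian varieties (`IsChow`,
`IsMotivic`): Poincaré duality, the formal properties of correspondences, the nilpotence of
homologically trivial correspondences (Kimura), the operation of the Frobenius endomorphism on higher
Chow groups, the vanishing of the higher rational `K`-groups of a finite field (Quillen), and the
algebraicity of the classes in `Alg` (of which only products of classes of divisors matter here,
theorem of Tate). The passage from the Tate conjecture to all degrees and to the class `Generated` is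
due to Soulé, Geisser, Kahn and Jannsen; it was formalized in the starting files and by helper117
(MP_cb388a_ag GeneratedByAbelian).

The theorem bounds the number of the exceptional families: it is at most
`2 ^ (∑ i, g i) * ∑ i, ρ (K i)`. Here `ρ (K)` (`rho n g φ₀`) is described as follows. The
automorphisms of `ℂ` act on the set of the `2 g` complex embeddings of `K` through a finite group
`G` (the Galois group of the normal closure), and so on the space `V`, of dimension `g`, of the
rational functions on this set that change their sign under complex conjugation. Then `ρ (K)` is the
sum of the numbers `w (W)` (`weight n g φ₀ W`) over the isotypic components `W` of `V`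
(`components K`):

* `w (W) = 0` if `n` is odd and every minimal Galois-stable space in `W` contains a function with
  integral values whose sum over a CM type is odd;
* otherwise `w (W) = (2 d / (π g)) ^ (d / 2)` if `W` is itself a minimal space, of dimension `d`;
* otherwise `w (W)` is the smaller of `(53 λ d / g) ^ (c / 2)` (if
  `(10 ^ 4 + 10 λ) ^ 2 λ d ≤ 2 g`; replaced by `1` if not) and
  `8 (2 d / (π g)) ^ (d / 2) (10 ^ 4 + 10 λ + 6 √(d g)) ^ (d - c)`. Here `λ = log (|G| n)`,
  `d = dim S` for the minimal spaces `S` in `W`, and `c = e + d - h`, where `e` is the dimension of
  the space of the equivariant endomorphisms of `S` and `h` the dimension of the space of the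
  functions in `S` that are invariant under the stabilizer of a complex embedding.

Let `Q` be the number of the imaginary quadratic subfields of `K` and `N d` the number of the
components `W` that are minimal spaces of dimension `d`. The second part (`RhoEstimate`) is the
estimate `ρ (K) ≤ Q / √g + 2 (N 2 + 1) / g + 3 N 3 / g ^ (3 / 2) + ∑ w (W)`, where the last sum is
over the components `W` which are not minimal, and the term `Q / √g` is omitted if `n g` is odd. The
third part (`NoMultipleComponents`) says that there are no such components if `K` is abelian over
`ℚ`, or if any two complex embeddings of `K` are exchanged by some automorphism of `ℂ` (for instance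
`K = k F` for an imaginary quadratic field `k` and a totally real field `F` with this property, such
as the fields of degree `binomial (n, m)` which belong to the sets with `m` elements of roots of a
polynomial of degree `n` with real roots and Galois group `S_n`). Always `N 3 ≤ g / 3`; if `K` is
cyclic over `ℚ` then `g` is odd or `Q = 0`, and `N 2 ≤ 2`, `N 3 = 0`.

The proof: if there are relations between the Frobenius eigenvalues of `Z` that are not generated by
those of the complex conjugate pairs, then for one of the types the sign function, multiplied by
`M`, is orthogonal to a minimal Galois-stable space. The number of these sign functions is estimated by a Fourier integral and the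
inequality of Hölder. There are in general infinitely many minimal spaces isomorphic to `S`, but
modulo a prime number `ℓ` that does not divide `|G| n` there are only about `ℓ ^ (h - e)` of them.
-/

namespace Pool.Agent.Results.MP_cb388a_ag.AlmostAllSlopeTypes

open NumberField Module Pool.Agent.H204R3.CM Pool.Agent.H977R3.CM Pool.Agent.TH170

open Pool.Agent.W495.TA Pool.Agent.W495.FM

open Pool.Agent.TH117.GN (IsWeilEtale)

/-- The groups `H^i_W(X, ℤ(n))` are finitely generated for all smooth projective varieties generated by
abelian varieties with the slope types `Φ`. -/
def Holds {p : ℕ} [Fact p.Prime] (ν : PadicAlgCl p ≃+* ℂ) {I : Type} (K : I → Type)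
    [∀ i, Field (K i)] (M : ∀ i, (K i →+* ℂ) → ℤ) (Φ : ∀ i, Set (K i →+* ℂ)) : Prop :=
  ∀ (Ω : Type) [Field Ω] [IsAlgClosed Ω] [CharZero Ω] (V : Type) (T : Homology Ω V),
    IsHomology T → ∀ (S : V → Prop) (W : V → ℤ → ℤ → Type) [∀ X n i, AddCommGroup (W X n i)],
      IsWeilEtale T S W → ∀ X : V, S X → Generated T (GS.IsAbelianOfTypes ν K M Φ T) X →
        ∀ n i : ℤ, AddGroup.FG (W X n i)

/-- The exceptional families of CM types. -/
def exceptionalFamilies {p : ℕ} [Fact p.Prime] (ν : PadicAlgCl p ≃+* ℂ) {I : Type} (K : I → Type)
    [∀ i, Field (K i)] (M : ∀ i, (K i →+* ℂ) → ℤ) : Set (∀ i, Set (K i →+* ℂ)) :=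
  {Φ | (∀ i, IsCMType (Φ i)) ∧ ¬ Holds ν K M Φ}

theorem holds_of {p : ℕ} [Fact p.Prime] {ν : PadicAlgCl p ≃+* ℂ} {I : Type} (K : I → Type)
    [∀ i, Field (K i)] (M : ∀ i, (K i →+* ℂ) → ℤ) (Φ : ∀ i, Set (K i →+* ℂ))
    (h : ∀ Y : RedAV p ν, GS.OfTypes K M Φ Y → ∃ Z : RedAV p ν,
      TH117.BL.HasElementaryRelations Z ∧ TH117.BL.IsPowersTimesSupersingular Z Y) :
    Holds ν K M Φ := fun _ _ _ _ _ _ hT _ _ _ hW X hS hX => hW X hS (GS.tb_types h hT hX)

/-- **The Weil-étale motivic cohomology groups of all smooth projective varieties generated by
abelian varieties with almost all slope types of CM fields are finitely generated.** -/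
theorem result :
    (∀ (p : ℕ) [Fact p.Prime] (ν : PadicAlgCl p ≃+* ℂ) {I : Type} [Fintype I] (K : I → Type)
      [∀ i, Field (K i)] [∀ i, NumberField (K i)] [∀ i, IsCMField (K i)]
      (M : ∀ i, (K i →+* ℂ) → ℤ) (n g : I → ℕ) (φ₀ : ∀ i, K i →+* ℂ), PairwiseIndep K →
      (∀ i φ, M i (ComplexEmbedding.conjugate φ) = M i φ) → (∀ i, n i ≠ 0) →
      (∀ i φ, M i φ ∣ (n i : ℤ)) → (∀ i, finrank ℚ (K i) = 2 * g i) →
      ((exceptionalFamilies ν K M).ncard : ℝ) ≤
        2 ^ (∑ i, g i) * ∑ i, GS.rho (n i) (g i) (φ₀ i)) ∧
    GS.RhoEstimate ∧ GS.NoMultipleComponents :=
  ⟨fun _ _ ν _ _ K _ _ _ M n g φ₀ hind hM hn hMn hg =>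
    GS.ncard_le ν K M n g φ₀ hind hM hn hMn hg _ fun Φ h => holds_of K M Φ h,
    GS.rhoEstimate, GS.noMultipleComponents⟩

end Pool.Agent.Results.MP_cb388a_ag.AlmostAllSlopeTypes
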